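import Pool.Agent.P8H24.UL.Bas

/-! # Project UL: points with given parameter -/

set_option autoImplicit false

namespace Pool.Agent.P8H24.UL

open Polynomial WeierstrassCurve Pool.Agent.P8H17.UL

section

variable {Ω : Type} [NormedField Ω] (na : ∀ x y : Ω, ‖x + y‖ ≤ max ‖x‖ ‖y‖)

include na

/-- the sizes of the coordinates of a nonintegral point -/
lemma size {V : WeierstrassCurve Ω} (hV : IntW V) {x y : Ω} (he : V.toAffine.Equation x y)
    (hx : 1 < ‖x‖) : ‖x‖ < ‖y‖ ∧ ‖y‖ ^ 2 = ‖x‖ ^ 3 := by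
  rw [Affine.equation_iff] at he
  have hx0 : 0 < ‖x‖ := by linarith
  have h1 : ‖x ^ 3 + V.a₂ * x ^ 2 + V.a₄ * x + V.a₆‖ = ‖x‖ ^ 3 := by
    have e : x ^ 3 + V.a₂ * x ^ 2 + V.a₄ * x + V.a₆ = x ^ 3 + (V.a₂ * x ^ 2 + V.a₄ * x + V.a₆) := by
      ring
    have h2 : ‖V.a₂ * x ^ 2 + V.a₄ * x + V.a₆‖ ≤ ‖x‖ ^ 2 := by
      refine add_le na (add_le na ?_ ?_) ?_
      · rw [norm_mul, norm_pow]
        exact mul_le_of_le_one_left (by positivity) hV.h2
      · rw [norm_mul]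
        calc ‖V.a₄‖ * ‖x‖ ≤ 1 * ‖x‖ := by gcongr; exact hV.h4
          _ ≤ ‖x‖ ^ 2 := by nlinarith
      · refine hV.h6.trans ?_
        nlinarith
    have h3 : ‖x‖ ^ 2 < ‖x‖ ^ 3 := by
      have : ‖x‖ ^ 3 = ‖x‖ ^ 2 * ‖x‖ := by ring
      rw [this]
      exact lt_mul_of_one_lt_right (by positivity) hx
    rw [e, add_eq na, norm_pow]
    rw [norm_pow]
    exact h2.trans_lt h3
  have h4 : ‖y * (y + V.a₁ * x + V.a₃)‖ = ‖x‖ ^ 3 := by
    rw [← h1, ← he]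
    congr 1
    ring
  have h5 : ‖V.a₁ * x + V.a₃‖ ≤ ‖x‖ := by
    refine add_le na ?_ (hV.h3.trans hx.le)
    rw [norm_mul]
    exact mul_le_of_le_one_left (by positivity) hV.h1
  have hy : ‖x‖ < ‖y‖ := by
    by_contra hc
    push Not at hc
    have h6 : ‖y + V.a₁ * x + V.a₃‖ ≤ ‖x‖ := by
      rw [add_assoc]
      exact add_le na hc h5
    rw [norm_mul] at h4
    have h7 : ‖y‖ * ‖y + V.a₁ * x + V.a₃‖ ≤ ‖x‖ * ‖x‖ := by gcongr
    have h8 : ‖x‖ * ‖x‖ < ‖x‖ ^ 3 := by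
      have : ‖x‖ ^ 3 = ‖x‖ * ‖x‖ * ‖x‖ := by ring
      rw [this]
      exact lt_mul_of_one_lt_right (by positivity) hx
    linarith
  refine ⟨hy, ?_⟩
  have h9 : ‖y + V.a₁ * x + V.a₃‖ = ‖y‖ := by
    rw [add_assoc]
    exact add_eq na (h5.trans_lt hy)
  rw [norm_mul, h9] at h4
  rw [← h4]
  ring

lemma exists_pt [IsAlgClosed Ω] {V : WeierstrassCurve Ω} (hV : IntW V) {t : Ω} (ht : ‖t‖ < 1) :
    ∃ P : Pt V, Big 1 P ∧ tt P = t := by
  by_cases ht0 : t = 0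
  · subst ht0
    exact ⟨0, fun x y h e => absurd e.symm (pt_ne h), rfl⟩
  have ht1 : 0 < ‖t‖ := norm_pos_iff.2 ht0
  have ha : (t ^ 3 : Ω) ≠ 0 := pow_ne_zero _ ht0
  let P : Cubic Ω := ⟨t ^ 3, V.a₂ * t ^ 2 - 1 - V.a₁ * t, V.a₄ * t - V.a₃, V.a₆⟩
  have hs : (P.toPoly.map (RingHom.id Ω)).Splits := IsAlgClosed.splits _
  obtain ⟨r1, r2, r3, hr⟩ := (Cubic.splits_iff_roots_eq_three (φ := RingHom.id Ω) (P := P) ha).1 hs
  have hb := Cubic.b_eq_three_roots (φ := RingHom.id Ω) (P := P) ha hr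
  have hsum : t ^ 3 * (r1 + r2 + r3) = 1 + V.a₁ * t - V.a₂ * t ^ 2 := by
    have : V.a₂ * t ^ 2 - 1 - V.a₁ * t = t ^ 3 * -(r1 + r2 + r3) := hb
    linear_combination this
  have hsm : ‖V.a₁ * t - V.a₂ * t ^ 2‖ < 1 := by
    refine sub_lt na (mul_lt' hV.h1 ht) (mul_lt' hV.h2 ?_)
    rw [norm_pow]
    exact pow_lt_one₀ (norm_nonneg _) ht two_ne_zero
  have hn1 : ‖t ^ 3 * (r1 + r2 + r3)‖ = 1 := by
    rw [hsum, show 1 + V.a₁ * t - V.a₂ * t ^ 2 = 1 + (V.a₁ * t - V.a₂ * t ^ 2) by ring,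
      add_eq na (by rwa [norm_one]), norm_one]
  -- a large root
  obtain ⟨s, hsr, hsn⟩ : ∃ s, s ∈ (P.map (RingHom.id Ω)).roots ∧ 1 ≤ ‖t‖ ^ 3 * ‖s‖ := by
    by_contra hc
    push Not at hc
    have h1 : ∀ r ∈ (P.map (RingHom.id Ω)).roots, ‖t ^ 3 * r‖ < 1 := fun r hr => by
      rw [norm_mul, norm_pow]
      exact hc r hr
    rw [hr] at h1
    have h2 : ‖t ^ 3 * (r1 + r2 + r3)‖ < 1 := by
      rw [mul_add, mul_add]
      exact add_lt na (add_lt na (h1 r1 (by simp)) (h1 r2 (by simp))) (h1 r3 (by simp))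
    exact absurd hn1 h2.ne
  have hP0 : P.toPoly ≠ 0 := Cubic.ne_zero_of_a_ne_zero ha
  have hroot : t ^ 3 * s ^ 3 + (V.a₂ * t ^ 2 - 1 - V.a₁ * t) * s ^ 2 + (V.a₄ * t - V.a₃) * s +
      V.a₆ = 0 := by
    have h1 : P.map (RingHom.id Ω) = P := by
      ext <;> rfl
    rw [h1] at hsr
    exact (Cubic.mem_roots_iff hP0 s).1 hsr
  have hs0 : s ≠ 0 := by
    rintro rfl
    rw [norm_zero, mul_zero] at hsn
    linarith
  have he : V.toAffine.Equation (t * s) s := by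
    rw [Affine.equation_iff]
    linear_combination -hroot
  have hns : V.toAffine.Nonsingular (t * s) s :=
    (Affine.equation_iff_nonsingular_of_Δ_ne_zero hV.hΔ).1 he
  refine ⟨pt hns, ?_, ?_⟩
  · intro x y h e
    obtain ⟨e1, -⟩ := pt_inj e
    rw [← e1, norm_mul]
    have h1 : ‖t‖ ^ 3 * ‖s‖ < ‖t‖ * ‖s‖ := by
      have hs1 : 0 < ‖s‖ := norm_pos_iff.2 hs0
      have : ‖t‖ ^ 3 < ‖t‖ := by
        calc ‖t‖ ^ 3 = ‖t‖ * (‖t‖ ^ 2) := by ring
          _ < ‖t‖ * 1 := by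
            gcongr
            exact pow_lt_one₀ (norm_nonneg _) ht two_ne_zero
          _ = ‖t‖ := mul_one _
      gcongr
    linarith
  · change t * s / s = t
    field_simp

lemma unique_pt {V : WeierstrassCurve Ω} (hV : IntW V) {P R : Pt V} (hP : Big 1 P) (hR : Big 1 R)
    (h : tt P = tt R) : P = R := by
  have key : ∀ (x y : Ω) (hn : V.toAffine.Nonsingular x y), 1 < ‖x‖ → x / y ≠ 0 := by
    intro x y hn hx
    obtain ⟨h1, -⟩ := size na hV hn.1 hx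
    have hx0 : x ≠ 0 := by
      rintro rfl
      rw [norm_zero] at hx
      linarith
    have hy0 : y ≠ 0 := by
      rintro rfl
      rw [norm_zero] at h1
      linarith
    exact div_ne_zero hx0 hy0
  rcases pt_cases P with rfl | ⟨x, y, hn, rfl⟩ <;> rcases pt_cases R with rfl | ⟨x', y', hn', rfl⟩
  · rfl
  · have h1 : (0 : Ω) = x' / y' := h
    exact absurd h1.symm (key x' y' hn' (hR x' y' hn' rfl))
  · have h1 : x / y = (0 : Ω) := h
    exact absurd h1 (key x y hn (hP x y hn rfl))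
  · have h1 : x / y = x' / y' := h
    have hx := hP x y hn rfl
    have hx' := hR x' y' hn' rfl
    obtain ⟨h2, h3⟩ := size na hV hn.1 hx
    obtain ⟨h2', h3'⟩ := size na hV hn'.1 hx'
    have hy0 : y ≠ 0 := by
      rintro rfl
      rw [norm_zero] at h2
      linarith
    have hy0' : y' ≠ 0 := by
      rintro rfl
      rw [norm_zero] at h2'
      linarith
    obtain ⟨t, ht⟩ : ∃ t, t = x / y := ⟨_, rfl⟩
    have ht' : t = x' / y' := ht.trans h1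
    have hxt : x = t * y := by rw [ht]; field_simp
    have hxt' : x' = t * y' := by rw [ht']; field_simp
    have htn : ‖t‖ < 1 := by
      rw [ht, norm_div, div_lt_one (by linarith)]
      exact h2
    have he := hn.1
    have he' := hn'.1
    rw [Affine.equation_iff, hxt] at he
    rw [Affine.equation_iff, hxt'] at he'
    obtain ⟨w, hw⟩ : ∃ w, w = y⁻¹ := ⟨_, rfl⟩
    obtain ⟨w', hw'⟩ : ∃ w', w' = y'⁻¹ := ⟨_, rfl⟩
    have hwn : ‖w‖ < 1 := by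
      rw [hw, norm_inv]
      exact inv_lt_one_of_one_lt₀ (by linarith)
    have hwn' : ‖w'‖ < 1 := by
      rw [hw', norm_inv]
      exact inv_lt_one_of_one_lt₀ (by linarith)
    have hyw : y * w = 1 := by rw [hw]; exact mul_inv_cancel₀ hy0
    have hyw' : y' * w' = 1 := by rw [hw']; exact mul_inv_cancel₀ hy0'
    have e1 : V.a₆ * w ^ 3 + (V.a₄ * t - V.a₃) * w ^ 2 + (V.a₂ * t ^ 2 - 1 - V.a₁ * t) * w +
        t ^ 3 = 0 := by
      have h5 : w ^ 3 * (y ^ 2 + V.a₁ * (t * y) * y + V.a₃ * y) =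
          w ^ 3 * ((t * y) ^ 3 + V.a₂ * (t * y) ^ 2 + V.a₄ * (t * y) + V.a₆) := by rw [he]
      have h6 : w ^ 3 * (y ^ 2 + V.a₁ * (t * y) * y + V.a₃ * y) =
          w * (y * w) ^ 2 + V.a₁ * t * w * (y * w) ^ 2 + V.a₃ * w ^ 2 * (y * w) := by ring
      have h7 : w ^ 3 * ((t * y) ^ 3 + V.a₂ * (t * y) ^ 2 + V.a₄ * (t * y) + V.a₆) =
          t ^ 3 * (y * w) ^ 3 + V.a₂ * t ^ 2 * w * (y * w) ^ 2 + V.a₄ * t * w ^ 2 * (y * w) +
            V.a₆ * w ^ 3 := by ring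
      rw [h6, h7, hyw] at h5
      linear_combination -h5
    have e2 : V.a₆ * w' ^ 3 + (V.a₄ * t - V.a₃) * w' ^ 2 + (V.a₂ * t ^ 2 - 1 - V.a₁ * t) * w' +
        t ^ 3 = 0 := by
      have h5 : w' ^ 3 * (y' ^ 2 + V.a₁ * (t * y') * y' + V.a₃ * y') =
          w' ^ 3 * ((t * y') ^ 3 + V.a₂ * (t * y') ^ 2 + V.a₄ * (t * y') + V.a₆) := by rw [he']
      have h6 : w' ^ 3 * (y' ^ 2 + V.a₁ * (t * y') * y' + V.a₃ * y') =
          w' * (y' * w') ^ 2 + V.a₁ * t * w' * (y' * w') ^ 2 + V.a₃ * w' ^ 2 * (y' * w') := by ring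
      have h7 : w' ^ 3 * ((t * y') ^ 3 + V.a₂ * (t * y') ^ 2 + V.a₄ * (t * y') + V.a₆) =
          t ^ 3 * (y' * w') ^ 3 + V.a₂ * t ^ 2 * w' * (y' * w') ^ 2 +
            V.a₄ * t * w' ^ 2 * (y' * w') + V.a₆ * w' ^ 3 := by ring
      rw [h6, h7, hyw'] at h5
      linear_combination -h5
    have e3 : (w - w') * (-1 + (V.a₆ * (w ^ 2 + w * w' + w' ^ 2) + (V.a₄ * t - V.a₃) * (w + w') +
        (V.a₂ * t ^ 2 - V.a₁ * t))) = 0 := by
      linear_combination e1 - e2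
    have h8 : ‖V.a₆ * (w ^ 2 + w * w' + w' ^ 2) + (V.a₄ * t - V.a₃) * (w + w') +
        (V.a₂ * t ^ 2 - V.a₁ * t)‖ < 1 := by
      have hp : ∀ z : Ω, ‖z‖ < 1 → ‖z ^ 2‖ < 1 := fun z hz => by
        rw [norm_pow]
        exact pow_lt_one₀ (norm_nonneg _) hz two_ne_zero
      refine add_lt na (add_lt na ?_ ?_) ?_
      · refine mul_lt' hV.h6 (add_lt na (add_lt na (hp w hwn) ?_) (hp w' hwn'))
        exact mul_lt hwn hwn'.le
      · refine mul_lt' ?_ (add_lt na hwn hwn')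
        exact sub_le na (mul_le hV.h4 htn.le) hV.h3
      · exact sub_lt na (mul_lt' hV.h2 (hp t htn)) (mul_lt' hV.h1 htn)
    have h9 : ‖-1 + (V.a₆ * (w ^ 2 + w * w' + w' ^ 2) + (V.a₄ * t - V.a₃) * (w + w') +
        (V.a₂ * t ^ 2 - V.a₁ * t))‖ = 1 := by
      rw [add_eq na, norm_neg, norm_one]
      rwa [norm_neg, norm_one]
    have h10 : w - w' = 0 := by
      rcases mul_eq_zero.1 e3 with h | h
      · exact h
      · rw [h, norm_zero] at h9
        exact absurd h9 (by norm_num)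
    have h11 : w = w' := sub_eq_zero.1 h10
    have h12 : y = y' := by
      rw [hw, hw'] at h11
      exact inv_injective h11
    exact pt_congr _ _ (by rw [hxt, hxt', h12]) h12

end

/-- FB -/
theorem fb : S_FB := by
  intro Ω _ _ na V hV
  exact ⟨fun t ht => exists_pt na hV ht, fun P R hP hR h => unique_pt na hV hP hR h⟩

end Pool.Agent.P8H24.UL
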