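import Pool.Agent.P8H24.UL.Bas

/-! # Project UL: finiteness modulo the kernel of the reduction -/

set_option autoImplicit false

namespace Pool.Agent.P8H24.UL

open WeierstrassCurve Pool.Agent.P8H17.UL

section

variable {Ω : Type} [NormedField Ω] (na : ∀ x y : Ω, ‖x + y‖ ≤ max ‖x‖ ‖y‖)

include na

/-- the discriminant is at most as large as one of the partial derivatives -/
lemma disc_le {V : WeierstrassCurve Ω} (hV : IntW V) {x y : Ω} (he : V.toAffine.Equation x y)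
    (hx : ‖x‖ ≤ 1) (hy : ‖y‖ ≤ 1) :
    ‖V.Δ‖ ≤ ‖2 * y + V.a₁ * x + V.a₃‖ ∨
      ‖V.Δ‖ ≤ ‖3 * x ^ 2 + 2 * V.a₂ * x + V.a₄ - V.a₁ * y‖ := by
  have hn : ∀ n : ℕ, ‖(n : Ω)‖ ≤ 1 := nat_le na
  rw [Affine.equation_iff] at he
  obtain ⟨a, ha⟩ : ∃ a, a = V.a₁ := ⟨_, rfl⟩
  obtain ⟨b, hb⟩ : ∃ b, b = V.a₂ + 3 * x := ⟨_, rfl⟩
  obtain ⟨c, hc⟩ : ∃ c, c = 2 * y + V.a₁ * x + V.a₃ := ⟨_, rfl⟩
  obtain ⟨d, hd⟩ : ∃ d, d = 3 * x ^ 2 + 2 * V.a₂ * x + V.a₄ - V.a₁ * y := ⟨_, rfl⟩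
  have h2 : ‖(2 : Ω)‖ ≤ 1 := by exact_mod_cast hn 2
  have h3 : ‖(3 : Ω)‖ ≤ 1 := by exact_mod_cast hn 3
  have h4 : ‖(4 : Ω)‖ ≤ 1 := by exact_mod_cast hn 4
  have h8 : ‖(8 : Ω)‖ ≤ 1 := by exact_mod_cast hn 8
  have h9 : ‖(9 : Ω)‖ ≤ 1 := by exact_mod_cast hn 9
  have h27 : ‖(27 : Ω)‖ ≤ 1 := by exact_mod_cast hn 27
  have ia : ‖a‖ ≤ 1 := by rw [ha]; exact hV.h1
  have ib : ‖b‖ ≤ 1 := by rw [hb]; exact add_le na hV.h2 (mul_le h3 hx)
  have ic : ‖c‖ ≤ 1 := by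
    rw [hc]
    exact add_le na (add_le na (mul_le h2 hy) (mul_le hV.h1 hx)) hV.h3
  have id : ‖d‖ ≤ 1 := by
    rw [hd]
    exact sub_le na (add_le na (add_le na (mul_le h3 (pow_le hx 2)) (mul_le (mul_le h2 hV.h2) hx))
      hV.h4) (mul_le hV.h1 hy)
  -- the discriminant after moving the point to the origin
  obtain ⟨B, hB⟩ : ∃ B, B = a ^ 2 + 4 * b := ⟨_, rfl⟩
  obtain ⟨E, hE⟩ : ∃ E, E = 2 * d + a * c := ⟨_, rfl⟩
  have iB : ‖B‖ ≤ 1 := by rw [hB]; exact add_le na (pow_le ia 2) (mul_le h4 ib)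
  have iE : ‖E‖ ≤ 1 := by rw [hE]; exact add_le na (mul_le h2 id) (mul_le ia ic)
  have key : V.Δ = c * (-B ^ 2 * (b * c) - 27 * c ^ 3 + 9 * B * E * c + a * d * B ^ 2 -
      8 * E ^ 2 * a) + d * (d * B ^ 2 - 16 * E ^ 2) := by
    have h5 : y ^ 2 + V.a₁ * x * y + V.a₃ * y - (x ^ 3 + V.a₂ * x ^ 2 + V.a₄ * x + V.a₆) = 0 :=
      sub_eq_zero.2 he
    have h6 : V.a₆ = y ^ 2 + V.a₁ * x * y + V.a₃ * y - (x ^ 3 + V.a₂ * x ^ 2 + V.a₄ * x) := by
      linear_combination -h5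
    rw [WeierstrassCurve.Δ, WeierstrassCurve.b₂, WeierstrassCurve.b₄, WeierstrassCurve.b₆,
      WeierstrassCurve.b₈, h6, hE, hB, hd, hc, hb, ha]
    ring
  have h16 : ‖(16 : Ω)‖ ≤ 1 := by exact_mod_cast hn 16
  by_contra hcon
  push Not at hcon
  rw [← hc, ← hd] at hcon
  have hlt : ‖V.Δ‖ < ‖V.Δ‖ := by
    conv_lhs => rw [key]
    refine add_lt na (mul_lt hcon.1 ?_) (mul_lt hcon.2 ?_)
    · refine sub_le na (add_le na (add_le na (sub_le na ?_ ?_) ?_) ?_) ?_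
      · refine mul_le ?_ (mul_le ib ic)
        rw [norm_neg]
        exact pow_le iB 2
      · exact mul_le h27 (pow_le ic 3)
      · exact mul_le (mul_le (mul_le h9 iB) iE) ic
      · exact mul_le (mul_le ia id) (pow_le iB 2)
      · exact mul_le (mul_le h8 (pow_le iE 2)) ia
    · exact sub_le na (mul_le id (pow_le iB 2)) (mul_le h16 (pow_le iE 2))
  exact lt_irrefl _ hlt

lemma disc_int {V : WeierstrassCurve Ω} (hV : IntW V) : ‖V.Δ‖ ≤ 1 := by
  have hn : ∀ n : ℕ, ‖(n : Ω)‖ ≤ 1 := nat_le na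
  have h2 : ‖(2 : Ω)‖ ≤ 1 := by exact_mod_cast hn 2
  have h4 : ‖(4 : Ω)‖ ≤ 1 := by exact_mod_cast hn 4
  have h8 : ‖(8 : Ω)‖ ≤ 1 := by exact_mod_cast hn 8
  have h9 : ‖(9 : Ω)‖ ≤ 1 := by exact_mod_cast hn 9
  have h27 : ‖(27 : Ω)‖ ≤ 1 := by exact_mod_cast hn 27
  have b2 : ‖V.b₂‖ ≤ 1 := by
    rw [WeierstrassCurve.b₂]
    exact add_le na (pow_le hV.h1 2) (mul_le h4 hV.h2)
  have b4 : ‖V.b₄‖ ≤ 1 := by
    rw [WeierstrassCurve.b₄]
    exact add_le na (mul_le h2 hV.h4) (mul_le hV.h1 hV.h3)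
  have b6 : ‖V.b₆‖ ≤ 1 := by
    rw [WeierstrassCurve.b₆]
    exact add_le na (pow_le hV.h3 2) (mul_le h4 hV.h6)
  have b8 : ‖V.b₈‖ ≤ 1 := by
    rw [WeierstrassCurve.b₈]
    exact sub_le na (add_le na (sub_le na (add_le na (mul_le (pow_le hV.h1 2) hV.h6)
      (mul_le (mul_le h4 hV.h2) hV.h6)) (mul_le (mul_le hV.h1 hV.h3) hV.h4))
      (mul_le hV.h2 (pow_le hV.h3 2))) (pow_le hV.h4 2)
  rw [WeierstrassCurve.Δ]
  refine add_le na (sub_le na (sub_le na (mul_le ?_ b8) (mul_le h8 (pow_le b4 3)))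
    (mul_le h27 (pow_le b6 2))) (mul_le (mul_le (mul_le h9 b2) b4) b6)
  rw [norm_neg]
  exact pow_le b2 2

open scoped Classical in
/-- points with near coordinates are congruent modulo the kernel of the reduction -/
lemma big_sub {V : WeierstrassCurve Ω} (hV : IntW V) {x y x' y' : Ω}
    (h : V.toAffine.Nonsingular x y) (h' : V.toAffine.Nonsingular x' y') (hx : ‖x‖ ≤ 1)
    (hy : ‖y‖ ≤ 1) (hx' : ‖x'‖ ≤ 1) (hxx : ‖x - x'‖ < ‖V.Δ‖)
    (hyy : ‖y - y'‖ < ‖V.Δ‖) : Big 1 (pt h - pt h') := by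
  have hΔ1 := disc_int na hV
  rw [sub_eq_add_neg, neg_pt]
  by_cases hxy : x = x' ∧ y = V.toAffine.negY x' (V.toAffine.negY x' y')
  · rw [add_pt_of_eq _ _ hxy.1 hxy.2]
    exact fun x y h e => absurd e.symm (pt_ne h)
  rw [add_pt _ _ hxy]
  have hn : ∀ n : ℕ, ‖(n : Ω)‖ ≤ 1 := nat_le na
  have h2 : ‖(2 : Ω)‖ ≤ 1 := by exact_mod_cast hn 2
  have he := (Affine.equation_iff (W := V.toAffine) x y).1 h.1
  have he' := (Affine.equation_iff (W := V.toAffine) x' y').1 h'.1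
  rw [Affine.negY_negY] at hxy
  obtain ⟨A, hA⟩ : ∃ A, A = y + y' + V.a₁ * x' + V.a₃ := ⟨_, rfl⟩
  obtain ⟨B, hB⟩ : ∃ B, B = x ^ 2 + x * x' + x' ^ 2 + V.a₂ * (x + x') + V.a₄ - V.a₁ * y := ⟨_, rfl⟩
  have hAB : (y - y') * A = (x - x') * B := by
    rw [hA, hB]
    linear_combination he - he'
  -- the slope is not integral
  have hsl : 1 < ‖V.toAffine.slope x x' y (V.toAffine.negY x' y')‖ := by
    by_cases hxe : x = x'
    · subst hxe
      have hye : y ≠ y' := fun e => hxy ⟨rfl, e⟩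
      have hye' : y ≠ V.toAffine.negY x (V.toAffine.negY x y') := by
        rwa [Affine.negY_negY]
      rw [Affine.slope_of_Y_ne rfl hye']
      have hA0 : A = 0 := by
        rw [sub_self, zero_mul] at hAB
        rcases mul_eq_zero.1 hAB with h | h
        · exact absurd (sub_eq_zero.1 h) hye
        · exact h
      have e1 : y - V.toAffine.negY x y = y - y' := by
        rw [Affine.negY]
        linear_combination hA0 - hA
      have e2 : 2 * y + V.a₁ * x + V.a₃ = y - y' := by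
        linear_combination hA0 - hA
      have h3 : ‖V.Δ‖ ≤ ‖3 * x ^ 2 + 2 * V.a₂ * x + V.a₄ - V.a₁ * y‖ := by
        rcases disc_le na hV h.1 hx hy with h | h
        · rw [e2] at h
          exact absurd hyy (not_lt.2 h)
        · exact h
      rw [e1, norm_div, one_lt_div (norm_pos_iff.2 (sub_ne_zero.2 hye))]
      exact hyy.trans_le h3
    · rw [Affine.slope_of_X_ne hxe]
      have e1 : y - V.toAffine.negY x' y' = A := by
        rw [Affine.negY, hA]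
        ring
      rw [e1, norm_div, one_lt_div (norm_pos_iff.2 (sub_ne_zero.2 hxe))]
      rcases disc_le na hV h.1 hx hy with h3 | h3
      · have h4 : ‖A‖ = ‖2 * y + V.a₁ * x + V.a₃‖ := by
          refine eq_of_sub na ?_
          refine lt_of_lt_of_le ?_ h3
          have e2 : A - (2 * y + V.a₁ * x + V.a₃) = -((y - y') + (x - x') * V.a₁) := by
            rw [hA]
            ring
          rw [e2, norm_neg]
          exact add_lt na hyy (mul_lt hxx hV.h1)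
        rw [h4]
        exact hxx.trans_le h3
      · have h4 : ‖B‖ = ‖3 * x ^ 2 + 2 * V.a₂ * x + V.a₄ - V.a₁ * y‖ := by
          refine eq_of_sub na ?_
          refine lt_of_lt_of_le ?_ h3
          have e2 : B - (3 * x ^ 2 + 2 * V.a₂ * x + V.a₄ - V.a₁ * y) =
              -((x - x') * (2 * x + x' + V.a₂)) := by
            rw [hB]
            ring
          rw [e2, norm_neg]
          exact mul_lt hxx (add_le na (add_le na (mul_le h2 hx) hx') hV.h2)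
        have hBn : ‖y - y'‖ < ‖B‖ := by
          rw [h4]
          exact hyy.trans_le h3
        have h5 : ‖y - y'‖ * ‖A‖ = ‖x - x'‖ * ‖B‖ := by
          rw [← norm_mul, ← norm_mul, hAB]
        have h6 : 0 < ‖x - x'‖ := norm_pos_iff.2 (sub_ne_zero.2 hxe)
        have h7 : ‖x - x'‖ * ‖y - y'‖ < ‖y - y'‖ * ‖A‖ := by
          rw [h5]
          exact mul_lt_mul_of_pos_left hBn h6
        rw [mul_comm] at h7
        exact lt_of_mul_lt_mul_left h7 (norm_nonneg _)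
  intro X Y hXY e
  obtain ⟨e1, -⟩ := pt_inj e
  rw [← e1]
  obtain ⟨l, hl⟩ : ∃ l, l = V.toAffine.slope x x' y (V.toAffine.negY x' y') := ⟨_, rfl⟩
  rw [← hl] at hsl ⊢
  have e3 : V.toAffine.addX x x' l = l ^ 2 + (V.a₁ * l - V.a₂ - x - x') := by
    rw [Affine.addX]
    ring
  have hl1 : ‖l‖ < ‖l ^ 2‖ := by
    rw [norm_pow]
    nlinarith
  rw [e3, add_eq na, norm_pow]
  · nlinarith
  · refine lt_of_le_of_lt ?_ hl1
    refine sub_le na (sub_le na (sub_le na ?_ (hV.h2.trans hsl.le)) (hx.trans hsl.le))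
      (hx'.trans hsl.le)
    rw [norm_mul]
    exact mul_le_of_le_one_left (norm_nonneg _) hV.h1

/-- the second coordinate of a point with integral first coordinate is integral -/
lemma int_y {V : WeierstrassCurve Ω} (hV : IntW V) {x y : Ω} (he : V.toAffine.Equation x y)
    (hx : ‖x‖ ≤ 1) : ‖y‖ ≤ 1 := by
  by_contra hc
  push Not at hc
  rw [Affine.equation_iff] at he
  have h1 : ‖y ^ 2 + V.a₁ * x * y + V.a₃ * y‖ = ‖y‖ ^ 2 := by
    rw [add_assoc, add_eq na, norm_pow]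
    have h2 : ‖V.a₁ * x * y + V.a₃ * y‖ ≤ ‖y‖ := by
      refine add_le na ?_ ?_
      · rw [norm_mul]
        exact mul_le_of_le_one_left (norm_nonneg _) (mul_le hV.h1 hx)
      · rw [norm_mul]
        exact mul_le_of_le_one_left (norm_nonneg _) hV.h3
    refine h2.trans_lt ?_
    rw [norm_pow]
    nlinarith
  have h2 : ‖x ^ 3 + V.a₂ * x ^ 2 + V.a₄ * x + V.a₆‖ ≤ 1 :=
    add_le na (add_le na (add_le na (pow_le hx 3) (mul_le hV.h2 (pow_le hx 2)))
      (mul_le hV.h4 hx)) hV.h6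
  rw [← he, h1] at h2
  nlinarith

end

open scoped Classical in
/-- FI -/
theorem fi : S_FI := by
  intro Ω _ _ na G N tb V hV hfix
  obtain ⟨X, hX⟩ := tb ‖V.Δ‖ (norm_pos_iff.2 hV.hΔ)
  -- a representative for each pair of balls
  let good : Ω × Ω → Pt V → Prop := fun c P => P ∈ Fix hfix N ∧
    ∃ (x y : Ω) (h : V.toAffine.Nonsingular x y), P = pt h ∧ ‖x‖ ≤ 1 ∧ ‖x - c.1‖ < ‖V.Δ‖ ∧
      ‖y - c.2‖ < ‖V.Δ‖
  let f : Ω × Ω → Pt V := fun c => if h : ∃ P, good c P then h.choose else 0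
  refine ⟨insert 0 ((X ×ˢ X).image f), fun P hP => ?_⟩
  have h0 : (0 : Pt V) ∈ Fix hfix N := zero_mem _
  have hbig0 : Big 1 (0 : Pt V) := fun x y h e => absurd e.symm (pt_ne h)
  rcases pt_cases P with rfl | ⟨x, y, hn, rfl⟩
  · exact ⟨0, Finset.mem_insert_self _ _, h0, by rw [sub_zero]; exact hbig0⟩
  by_cases hx : ‖x‖ ≤ 1
  · have hy := int_y na hV hn.1 hx
    have hfx : ∀ σ ∈ N, (σ : RingAut Ω) x = x := fun σ hσ =>
      ((pt_mem_Fix hfix N hn).1 hP σ hσ).1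
    have hfy : ∀ σ ∈ N, (σ : RingAut Ω) y = y := fun σ hσ =>
      ((pt_mem_Fix hfix N hn).1 hP σ hσ).2
    obtain ⟨a, ha, hxa⟩ := hX x hx hfx
    obtain ⟨b, hb, hyb⟩ := hX y hy hfy
    have hex : ∃ P, good (a, b) P := ⟨pt hn, hP, x, y, hn, rfl, hx, hxa, hyb⟩
    have hf : f (a, b) = hex.choose := dif_pos hex
    have hg : good (a, b) (f (a, b)) := by
      rw [hf]
      exact hex.choose_spec
    obtain ⟨hg1, x', y', hn', e, hx', hxa', hyb'⟩ := hg
    refine ⟨f (a, b), Finset.mem_insert_of_mem (Finset.mem_image_of_mem f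
      (Finset.mk_mem_product ha hb)), hg1, ?_⟩
    rw [e]
    refine big_sub na hV hn hn' hx hy hx' ?_ ?_
    · have e : x - x' = (x - a) - (x' - a) := by ring
      rw [e]
      exact sub_lt na hxa hxa'
    · have e : y - y' = (y - b) - (y' - b) := by ring
      rw [e]
      exact sub_lt na hyb hyb'
  · push Not at hx
    refine ⟨0, Finset.mem_insert_self _ _, h0, ?_⟩
    rw [sub_zero]
    intro x₁ y₁ h₁ e
    obtain ⟨e1, -⟩ := pt_inj e
    rw [← e1]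
    exact hx

end Pool.Agent.P8H24.UL
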