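import Pool.Agent.P8H24.UL.Bas

/-! # Project UL: lifting of residues and of nonsingular points -/

set_option autoImplicit false

namespace Pool.Agent.P8H24.UL

open Polynomial WeierstrassCurve Pool.Agent.P8H17.UL

/-- TE -/
theorem te : S_TE := by
  intro Ω _ _ _ G N φ p m Q S x hx hxQ
  have na := S.na
  rcases hx.lt_or_eq with h | h
  · exact ⟨0, fun σ _ => map_zero _, by rw [zero_sub, norm_neg]; exact h⟩
  obtain ⟨z, n, hz, hn, hzx⟩ := S.teich x h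
  refine ⟨z, fun σ hσ => ?_, hzx⟩
  have hz1 : ‖z‖ = 1 := by
    have h1 := eq_of_sub na (x := z) (y := x) (by rwa [h])
    rw [h1, h]
  have hzQ : ‖z ^ Q ^ p ^ m - z‖ < 1 := by
    have h1 := pow_sub_lt na hx hz1.le hzx (Q ^ p ^ m)
    have e : z ^ Q ^ p ^ m - z =
        (z ^ Q ^ p ^ m - x ^ Q ^ p ^ m) + (x ^ Q ^ p ^ m - x) - (z - x) := by ring
    rw [e]
    exact sub_lt na (add_lt na h1 hxQ) hzx
  have h2 := S.triv σ hσ z hz1.le hzQ
  by_contra hne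
  have hz0 : z ≠ 0 := by
    rintro rfl
    rw [norm_zero] at hz1
    exact zero_ne_one hz1
  obtain ⟨ζ, hζ⟩ : ∃ ζ : Ω, ζ = (σ : RingAut Ω) z / z := ⟨_, rfl⟩
  have hζ1 : ζ ≠ 1 := by
    intro h3
    rw [h3] at hζ
    exact hne (by field_simp at hζ; exact hζ.symm)
  have hζn : ζ ^ n = 1 := by
    rw [hζ, div_pow, hz, ← map_pow, hz, map_one, div_one]
  have hζs : ‖ζ - 1‖ < 1 := by
    have e : ζ - 1 = ((σ : RingAut Ω) z - z) / z := by
      rw [hζ]
      field_simp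
    rw [e, norm_div, hz1, div_one]
    exact h2
  have hζ2 : ‖ζ‖ = 1 := by
    have := eq_of_sub na (x := ζ) (y := 1) (by rwa [norm_one])
    rw [this, norm_one]
  have h3 : ∑ i ∈ Finset.range n, ζ ^ i = 0 := by
    have h4 := geom_sum_mul ζ n
    rw [hζn, sub_self] at h4
    rcases mul_eq_zero.1 h4 with h5 | h5
    · exact h5
    · exact absurd (sub_eq_zero.1 h5) hζ1
  have h4 : ‖(n : Ω)‖ < 1 := by
    have e : (n : Ω) = -∑ i ∈ Finset.range n, (ζ ^ i - 1) := by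
      rw [Finset.sum_sub_distrib, h3]
      simp
    rw [e, norm_neg]
    refine sum_lt na _ _ one_pos fun i _ => ?_
    have h5 := pow_sub_lt na (x := (1 : Ω)) (z := ζ) (by rw [norm_one]) hζ2.le hζs i
    rwa [one_pow] at h5
  exact absurd hn h4.ne

/-- HE from TE -/
theorem he_of (hTE : S_TE) : S_HE := by
  intro Ω _ _ _ G N φ p m Q S V hV hfix x y hx hy hxQ hyQ heq hns
  have na := S.na
  obtain ⟨x₁, hx₁, hxx⟩ := hTE Ω G N φ p m Q S x hx hxQ
  obtain ⟨y₁, hy₁, hyy⟩ := hTE Ω G N φ p m Q S y hy hyQ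
  have hxn : ‖x₁‖ ≤ 1 := by
    have e : x₁ = (x₁ - x) + x := by ring
    rw [e]
    exact add_le na hxx.le hx
  have hyn : ‖y₁‖ ≤ 1 := by
    have e : y₁ = (y₁ - y) + y := by ring
    rw [e]
    exact add_le na hyy.le hy
  have n2 : ‖(2 : Ω)‖ ≤ 1 := by exact_mod_cast nat_le na 2
  have n3 : ‖(3 : Ω)‖ ≤ 1 := by exact_mod_cast nat_le na 3
  -- the equation at the lifts
  have heq1 : ‖y₁ ^ 2 + V.a₁ * x₁ * y₁ + V.a₃ * y₁ -
      (x₁ ^ 3 + V.a₂ * x₁ ^ 2 + V.a₄ * x₁ + V.a₆)‖ < 1 := by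
    have e : y₁ ^ 2 + V.a₁ * x₁ * y₁ + V.a₃ * y₁ - (x₁ ^ 3 + V.a₂ * x₁ ^ 2 + V.a₄ * x₁ + V.a₆) =
        (y ^ 2 + V.a₁ * x * y + V.a₃ * y - (x ^ 3 + V.a₂ * x ^ 2 + V.a₄ * x + V.a₆)) +
        ((y₁ - y) * (y₁ + y + V.a₁ * x₁ + V.a₃) -
          (x₁ - x) * (x₁ ^ 2 + x₁ * x + x ^ 2 + V.a₂ * (x₁ + x) + V.a₄ - V.a₁ * y)) := by ring
    rw [e]
    refine add_lt na heq (sub_lt na (mul_lt hyy ?_) (mul_lt hxx ?_))
    · exact add_le na (add_le na (add_le na hyn hy) (mul_le hV.h1 hxn)) hV.h3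
    · refine sub_le na (add_le na (add_le na (add_le na (add_le na (pow_le hxn 2)
        (mul_le hxn hx)) (pow_le hx 2)) (mul_le hV.h2 (add_le na hxn hx))) hV.h4) (mul_le hV.h1 hy)
  have hA : ∀ σ ∈ N, (σ : RingAut Ω) V.a₁ = V.a₁ ∧ (σ : RingAut Ω) V.a₂ = V.a₂ ∧
      (σ : RingAut Ω) V.a₃ = V.a₃ ∧ (σ : RingAut Ω) V.a₄ = V.a₄ ∧ (σ : RingAut Ω) V.a₆ = V.a₆ := by
    intro σ _
    have h1 := hfix σ σ.2
    exact ⟨congrArg WeierstrassCurve.a₁ h1, congrArg WeierstrassCurve.a₂ h1,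
      congrArg WeierstrassCurve.a₃ h1, congrArg WeierstrassCurve.a₄ h1,
      congrArg WeierstrassCurve.a₆ h1⟩
  have hnear : ∀ (σ : G) (r c : Ω), (σ : RingAut Ω) c = c → ‖r - c‖ < 1 →
      ‖(σ : RingAut Ω) r - r‖ < 1 := by
    intro σ r c hc h
    have h1 : ‖(σ : RingAut Ω) r - c‖ < 1 := by
      have := S.iso σ (r - c)
      rw [map_sub, hc] at this
      rwa [this]
    have e : (σ : RingAut Ω) r - r = ((σ : RingAut Ω) r - c) - (r - c) := by ring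
    rw [e]
    exact sub_lt na h1 h
  rcases hns with hns | hns
  · -- solve for the first coordinate
    obtain ⟨g, hg⟩ : ∃ g : Polynomial Ω, g = X ^ 3 + C V.a₂ * X ^ 2 + C (V.a₄ - V.a₁ * y₁) * X +
        C (V.a₆ - V.a₃ * y₁ - y₁ ^ 2) := ⟨_, rfl⟩
    have hgm : g.Monic := by
      rw [hg]
      monicity!
    have hge : ∀ c, g.eval c = c ^ 3 + V.a₂ * c ^ 2 + (V.a₄ - V.a₁ * y₁) * c +
        (V.a₆ - V.a₃ * y₁ - y₁ ^ 2) := by
      intro c
      rw [hg]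
      simp
    obtain ⟨r, hr, hrx⟩ := root_near (g := g) hgm (c := x₁) (by
      rw [hge, ← norm_neg]
      have e : -(x₁ ^ 3 + V.a₂ * x₁ ^ 2 + (V.a₄ - V.a₁ * y₁) * x₁ + (V.a₆ - V.a₃ * y₁ - y₁ ^ 2)) =
          y₁ ^ 2 + V.a₁ * x₁ * y₁ + V.a₃ * y₁ - (x₁ ^ 3 + V.a₂ * x₁ ^ 2 + V.a₄ * x₁ + V.a₆) := by
        ring
      rw [e]
      exact heq1)
    rw [hge] at hr
    have hrn : ‖r‖ ≤ 1 := by
      have e : r = (r - x₁) + x₁ := by ring
      rw [e]
      exact add_le na hrx.le hxn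
    have he : V.toAffine.Equation r y₁ := by
      rw [Affine.equation_iff]
      linear_combination -hr
    refine ⟨r, y₁, (Affine.equation_iff_nonsingular_of_Δ_ne_zero hV.hΔ).1 he, ?_, hyy,
      fun σ hσ => ⟨?_, hy₁ σ hσ⟩⟩
    · have e : r - x = (r - x₁) + (x₁ - x) := by ring
      rw [e]
      exact add_lt na hrx hxx
    · by_contra hne
      obtain ⟨a1, a2, a3, a4, a6⟩ := hA σ hσ
      obtain ⟨s, hs⟩ : ∃ s, s = (σ : RingAut Ω) r := ⟨_, rfl⟩
      rw [← hs] at hne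
      have hsr : ‖s - r‖ < 1 := by
        rw [hs]
        exact hnear σ r x₁ (hx₁ σ hσ) hrx
      have hsn : ‖s‖ ≤ 1 := by
        rw [hs, S.iso]
        exact hrn
      have hs1 : s ^ 3 + V.a₂ * s ^ 2 + (V.a₄ - V.a₁ * y₁) * s +
          (V.a₆ - V.a₃ * y₁ - y₁ ^ 2) = 0 := by
        have h1 := congrArg (σ : RingAut Ω) hr
        simp only [map_add, map_sub, map_mul, map_pow, map_zero, a1, a2, a3, a4, a6,
          hy₁ σ hσ] at h1
        rw [← hs] at h1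
        exact h1
      have h2 : (s - r) * (s ^ 2 + s * r + r ^ 2 + V.a₂ * (s + r) + (V.a₄ - V.a₁ * y₁)) = 0 := by
        linear_combination hs1 - hr
      have h3 : s ^ 2 + s * r + r ^ 2 + V.a₂ * (s + r) + (V.a₄ - V.a₁ * y₁) = 0 := by
        rcases mul_eq_zero.1 h2 with h | h
        · exact absurd (sub_eq_zero.1 h) hne
        · exact h
      -- it is congruent to the derivative
      have hrx' : ‖r - x‖ < 1 := by
        have e : r - x = (r - x₁) + (x₁ - x) := by ring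
        rw [e]
        exact add_lt na hrx hxx
      have h4 : ‖V.a₁ * y - (3 * x ^ 2 + 2 * V.a₂ * x + V.a₄)‖ < 1 := by
        have e : V.a₁ * y - (3 * x ^ 2 + 2 * V.a₂ * x + V.a₄) =
            -(s ^ 2 + s * r + r ^ 2 + V.a₂ * (s + r) + (V.a₄ - V.a₁ * y₁)) +
            ((s - r) * (s + 2 * r + V.a₂) + (r - x) * (3 * (r + x) + 2 * V.a₂) -
              (y₁ - y) * V.a₁) := by ring
        rw [e, h3, neg_zero, zero_add]
        refine sub_lt na (add_lt na (mul_lt hsr ?_) (mul_lt hrx' ?_)) (mul_lt hyy hV.h1)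
        · exact add_le na (add_le na hsn (mul_le n2 hrn)) hV.h2
        · exact add_le na (mul_le n3 (add_le na hrn hx)) (mul_le n2 hV.h2)
      exact absurd hns h4.ne
  · -- solve for the second coordinate
    obtain ⟨g, hg⟩ : ∃ g : Polynomial Ω, g = X ^ 2 + C (V.a₁ * x₁ + V.a₃) * X +
        C (-(x₁ ^ 3 + V.a₂ * x₁ ^ 2 + V.a₄ * x₁ + V.a₆)) := ⟨_, rfl⟩
    have hgm : g.Monic := by
      rw [hg]
      monicity!
    have hge : ∀ c, g.eval c = c ^ 2 + (V.a₁ * x₁ + V.a₃) * c -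
        (x₁ ^ 3 + V.a₂ * x₁ ^ 2 + V.a₄ * x₁ + V.a₆) := by
      intro c
      rw [hg]
      simp only [eval_add, eval_mul, eval_pow, eval_X, eval_C]
      ring
    obtain ⟨r, hr, hrx⟩ := root_near (g := g) hgm (c := y₁) (by
      rw [hge]
      have e : y₁ ^ 2 + (V.a₁ * x₁ + V.a₃) * y₁ - (x₁ ^ 3 + V.a₂ * x₁ ^ 2 + V.a₄ * x₁ + V.a₆) =
          y₁ ^ 2 + V.a₁ * x₁ * y₁ + V.a₃ * y₁ - (x₁ ^ 3 + V.a₂ * x₁ ^ 2 + V.a₄ * x₁ + V.a₆) := by
        ring
      rw [e]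
      exact heq1)
    rw [hge] at hr
    have hrn : ‖r‖ ≤ 1 := by
      have e : r = (r - y₁) + y₁ := by ring
      rw [e]
      exact add_le na hrx.le hyn
    have he : V.toAffine.Equation x₁ r := by
      rw [Affine.equation_iff]
      linear_combination hr
    refine ⟨x₁, r, (Affine.equation_iff_nonsingular_of_Δ_ne_zero hV.hΔ).1 he, hxx, ?_,
      fun σ hσ => ⟨hx₁ σ hσ, ?_⟩⟩
    · have e : r - y = (r - y₁) + (y₁ - y) := by ring
      rw [e]
      exact add_lt na hrx hyy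
    · by_contra hne
      obtain ⟨a1, a2, a3, a4, a6⟩ := hA σ hσ
      obtain ⟨s, hs⟩ : ∃ s, s = (σ : RingAut Ω) r := ⟨_, rfl⟩
      rw [← hs] at hne
      have hsr : ‖s - r‖ < 1 := by
        rw [hs]
        exact hnear σ r y₁ (hy₁ σ hσ) hrx
      have hs1 : s ^ 2 + (V.a₁ * x₁ + V.a₃) * s - (x₁ ^ 3 + V.a₂ * x₁ ^ 2 + V.a₄ * x₁ + V.a₆) = 0 := by
        have h1 := congrArg (σ : RingAut Ω) hr
        simp only [map_add, map_sub, map_mul, map_pow, map_zero, a1, a2, a3, a4, a6,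
          hx₁ σ hσ] at h1
        rw [← hs] at h1
        exact h1
      have h2 : (s - r) * (s + r + V.a₁ * x₁ + V.a₃) = 0 := by
        linear_combination hs1 - hr
      have h3 : s + r + V.a₁ * x₁ + V.a₃ = 0 := by
        rcases mul_eq_zero.1 h2 with h | h
        · exact absurd (sub_eq_zero.1 h) hne
        · exact h
      have hrx' : ‖r - y‖ < 1 := by
        have e : r - y = (r - y₁) + (y₁ - y) := by ring
        rw [e]
        exact add_lt na hrx hyy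
      have h4 : ‖2 * y + V.a₁ * x + V.a₃‖ < 1 := by
        have e : 2 * y + V.a₁ * x + V.a₃ = (s + r + V.a₁ * x₁ + V.a₃) -
            ((s - r) + 2 * (r - y) + V.a₁ * (x₁ - x)) := by ring
        rw [e, h3, zero_sub, norm_neg]
        exact add_lt na (add_lt na hsr (mul_lt' n2 hrx')) (mul_lt' hV.h1 hxx)
      exact absurd hns h4.ne

end Pool.Agent.P8H24.UL
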