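import Pool.Agent.P8H17.UL.Stm

/-! # Project UL: tools for nonarchimedean norms -/

set_option autoImplicit false

namespace Pool.Agent.P8H24.UL

open Polynomial

section

variable {Ω : Type} [NormedField Ω] (na : ∀ x y : Ω, ‖x + y‖ ≤ max ‖x‖ ‖y‖)

include na

lemma um : IsUltrametricDist Ω := IsUltrametricDist.isUltrametricDist_of_forall_norm_add_le_max_norm na

lemma na_sub (x y : Ω) : ‖x - y‖ ≤ max ‖x‖ ‖y‖ := by
  have := na x (-y)
  rwa [norm_neg, ← sub_eq_add_neg] at this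

lemma add_le {x y : Ω} {r : ℝ} (hx : ‖x‖ ≤ r) (hy : ‖y‖ ≤ r) : ‖x + y‖ ≤ r :=
  (na x y).trans (max_le hx hy)

lemma sub_le {x y : Ω} {r : ℝ} (hx : ‖x‖ ≤ r) (hy : ‖y‖ ≤ r) : ‖x - y‖ ≤ r :=
  (na_sub na x y).trans (max_le hx hy)

lemma add_lt {x y : Ω} {r : ℝ} (hx : ‖x‖ < r) (hy : ‖y‖ < r) : ‖x + y‖ < r :=
  (na x y).trans_lt (max_lt hx hy)

lemma sub_lt {x y : Ω} {r : ℝ} (hx : ‖x‖ < r) (hy : ‖y‖ < r) : ‖x - y‖ < r :=
  (na_sub na x y).trans_lt (max_lt hx hy)

/-- the larger term dominates -/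
lemma add_eq {x y : Ω} (h : ‖y‖ < ‖x‖) : ‖x + y‖ = ‖x‖ := by
  refine le_antisymm (add_le na le_rfl h.le) ?_
  by_contra hc
  push Not at hc
  have h1 : ‖(x + y) - y‖ < ‖x‖ := sub_lt na hc h
  rw [add_sub_cancel_right] at h1
  exact lt_irrefl _ h1

lemma add_eq' {x y : Ω} (h : ‖x‖ < ‖y‖) : ‖x + y‖ = ‖y‖ := by
  rw [add_comm]
  exact add_eq na h

lemma sub_eq {x y : Ω} (h : ‖y‖ < ‖x‖) : ‖x - y‖ = ‖x‖ := by
  rw [sub_eq_add_neg]
  exact add_eq na (by rwa [norm_neg])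

/-- two elements whose difference is smaller than one of them -/
lemma eq_of_sub {x y : Ω} (h : ‖x - y‖ < ‖y‖) : ‖x‖ = ‖y‖ := by
  have := add_eq' na h
  rwa [sub_add_cancel] at this

omit na in
lemma mul_le {x y : Ω} (hx : ‖x‖ ≤ 1) (hy : ‖y‖ ≤ 1) : ‖x * y‖ ≤ 1 := by
  rw [norm_mul]
  exact mul_le_one₀ hx (norm_nonneg _) hy

omit na in
lemma pow_le {x : Ω} (hx : ‖x‖ ≤ 1) (n : ℕ) : ‖x ^ n‖ ≤ 1 := by
  rw [norm_pow]
  exact pow_le_one₀ (norm_nonneg _) hx

omit na in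
lemma mul_lt {x y : Ω} {r : ℝ} (hx : ‖x‖ < r) (hy : ‖y‖ ≤ 1) : ‖x * y‖ < r := by
  rw [norm_mul]
  exact (mul_le_of_le_one_right (norm_nonneg _) hy).trans_lt hx

omit na in
lemma mul_lt' {x y : Ω} {r : ℝ} (hx : ‖x‖ ≤ 1) (hy : ‖y‖ < r) : ‖x * y‖ < r := by
  rw [mul_comm]
  exact mul_lt hy hx

lemma nat_le (n : ℕ) : ‖(n : Ω)‖ ≤ 1 := by
  have := um na
  exact IsUltrametricDist.norm_natCast_le_one Ω n

lemma sum_lt {ι : Type*} (s : Finset ι) (f : ι → Ω) {r : ℝ} (hr : 0 < r)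
    (h : ∀ i ∈ s, ‖f i‖ < r) : ‖∑ i ∈ s, f i‖ < r := by
  classical
  induction s using Finset.induction_on with
  | empty => simpa using hr
  | insert a s ha ih =>
    rw [Finset.sum_insert ha]
    exact add_lt na (h a (Finset.mem_insert_self _ _))
      (ih fun i hi => h i (Finset.mem_insert_of_mem hi))

lemma sum_le {ι : Type*} (s : Finset ι) (f : ι → Ω) {r : ℝ} (hr : 0 ≤ r)
    (h : ∀ i ∈ s, ‖f i‖ ≤ r) : ‖∑ i ∈ s, f i‖ ≤ r := by
  classical
  induction s using Finset.induction_on with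
  | empty => simpa using hr
  | insert a s ha ih =>
    rw [Finset.sum_insert ha]
    exact add_le na (h a (Finset.mem_insert_self _ _))
      (ih fun i hi => h i (Finset.mem_insert_of_mem hi))

/-- powers of congruent integral elements are congruent -/
lemma pow_sub_lt {x z : Ω} (hx : ‖x‖ ≤ 1) (hz : ‖z‖ ≤ 1) (h : ‖z - x‖ < 1) (n : ℕ) :
    ‖z ^ n - x ^ n‖ < 1 := by
  have e : z ^ n - x ^ n = (∑ i ∈ Finset.range n, z ^ i * x ^ (n - 1 - i)) * (z - x) :=
    (Commute.geom_sum₂_mul (Commute.all z x) n).symm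
  rw [e]
  refine mul_lt' ?_ h
  exact sum_le na _ _ zero_le_one fun i _ => mul_le (pow_le hz i) (pow_le hx _)

omit na in
/-- a monic polynomial which is small at `c` has a root near `c` -/
lemma root_near [IsAlgClosed Ω] {g : Polynomial Ω} (hg : g.Monic) {c : Ω} (h : ‖g.eval c‖ < 1) :
    ∃ r, g.eval r = 0 ∧ ‖r - c‖ < 1 := by
  by_contra hcon
  push Not at hcon
  have hs := IsAlgClosed.splits g
  have e : g = (g.roots.map fun a => X - C a).prod := hs.eq_prod_roots_of_monic hg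
  have e1 : g.eval c = (g.roots.map fun a => c - a).prod := by
    conv_lhs => rw [e]
    rw [eval_multiset_prod, Multiset.map_map]
    simp
  have h1 : ∀ s : Multiset Ω, (∀ a ∈ s, 1 ≤ ‖a - c‖) → 1 ≤ ‖(s.map fun a => c - a).prod‖ := by
    intro s
    induction s using Multiset.induction_on with
    | empty => intro _; simp
    | cons a s ih =>
      intro h
      rw [Multiset.map_cons, Multiset.prod_cons, norm_mul]
      have h2 : 1 ≤ ‖c - a‖ := by
        rw [norm_sub_rev]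
        exact h a (Multiset.mem_cons_self a s)
      have h3 := ih fun b hb => h b (Multiset.mem_cons_of_mem hb)
      exact one_le_mul_of_one_le_of_one_le h2 h3
  have h2 := h1 g.roots fun a ha => by
    by_contra hc
    push Not at hc
    have := hcon a ((mem_roots'.1 ha).2)
    exact absurd hc (not_lt.2 this)
  rw [← e1] at h2
  exact absurd h (not_lt.2 h2)

end

end Pool.Agent.P8H24.UL
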